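import Pool.Agent.Helper94_PP.StmtsKR

/-!
# Squad PP, part A: statements

Text: `AWC_A.md` (version 2).  Relative chain reduction, positivity, Fong-Reynolds, the master
induction.
-/

open scoped BigOperators

noncomputable section

namespace Pool.Agent.PP

open Pool.Agent.Helper51_AWC Pool.Agent.Helper79_WRA

section defs

variable {F H : Type} [Field F] [Group H]

/-- extension by zero of a function on a subgroup -/
def ext0 (N : Subgroup H) (b : N → F) : H → F :=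
  open Classical in fun g => if h : g ∈ N then b ⟨g, h⟩ else 0

/-- the stabiliser of a function under conjugation -/
def stabF (a : H → F) : Subgroup H where
  carrier := {g | ∀ x, a (g * x * g⁻¹) = a x}
  one_mem' := by intro x; simp
  mul_mem' := by
    intro g h hg hh x
    have e : g * h * x * (g * h)⁻¹ = g * (h * x * h⁻¹) * g⁻¹ := by group
    rw [e, hg, hh]
  inv_mem' := by
    intro g hg x
    have := hg (g⁻¹ * x * g⁻¹⁻¹)
    rw [← this]
    congr 1
    group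

/-- the index of the centre: `|N : N ∩ Z(H)|` -/
def mu (N : Subgroup H) : ℕ := (Subgroup.center H).relIndex N

/-- the block idempotent `b` lies in the projective centre (the span of the class sums of defect
zero) -/
def DZ (ℓ : ℕ) {N : Type} [Group N] (b : N → F) : Prop :=
  b ∈ Submodule.span F {f : N → F | ∃ x : N,
    ¬ ℓ ∣ Nat.card (Subgroup.centralizer ({x} : Set N)) ∧ f = clsum F ⊤ x}

/-- a nonabelian simple group -/
def NASimple (S : Type) [Group S] : Prop := IsSimpleGroup S ∧ ∃ x y : S, x * y ≠ y * x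

/-- almost simple groups -/
def AlmostSimple (G : Type) [Group G] : Prop :=
  ∃ S : Subgroup G, S.Normal ∧ NASimple S ∧ Subgroup.centralizer (S : Set G) = ⊥

/-- `N / (N ∩ Z(H))` is a minimal normal subgroup of `H / (N ∩ Z(H))` -/
def Chief (N : Subgroup H) : Prop :=
  N.Normal ∧ ¬ N ≤ Subgroup.center H ∧
    ∀ T : Subgroup H, T.Normal → N ⊓ Subgroup.center H ≤ T → T ≤ N →
      T = N ⊓ Subgroup.center H ∨ T = N

end defs

/-! ## Chains -/

open Classical in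
/-- RCH: reduction to the chains of `N` meeting `N₂` trivially (relative version of
`ChainRedStmt`). -/
def RchStmt : Prop := ∀ (ℓ : ℕ) [Fact ℓ.Prime] (G : Type) [Group G] [Finite G]
  (N N₂ : Subgroup G), N.Normal → N₂.Normal → N₂ ≤ N → ∀ w : Subgroup G → ℤ,
  ∑ d ∈ chainsOn (psubIn ℓ N) ⊥, (-1) ^ (d.card + 1) * w (stab d) =
    ∑ c ∈ (chainsOn (psubIn ℓ N) ⊥).filter (fun c => ∀ D ∈ c, D ⊓ N₂ = ⊥),
      (-1) ^ (c.card + 1) * tsum ℓ N₂ w c

open Classical in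
/-- RCN: the same with normal chains. -/
def RcnStmt : Prop := ∀ (ℓ : ℕ) [Fact ℓ.Prime] (G : Type) [Group G] [Finite G]
  (N N₂ : Subgroup G), N.Normal → N₂.Normal → N₂ ≤ N → ∀ w : Subgroup G → ℤ,
  ∑ d ∈ chainsOn (psubIn ℓ N) ⊥, (-1) ^ (d.card + 1) * w (stab d) =
    ∑ c ∈ (chainsOn (psubIn ℓ N) ⊥).filter (fun c => NormalChain c ∧ ∀ D ∈ c, D ⊓ N₂ = ⊥),
      (-1) ^ (c.card + 1) * tsum ℓ N₂ w c

/-- YZR: the sum vanishes if `O_ℓ(Q) ≠ 1`. -/
def YzrStmt : Prop := ∀ (ℓ : ℕ) (F : Type) [Field F], ℓ.Prime → ∀ (G : Type) [Group G] [Finite G]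
  (Q : Subgroup G), Q.Normal → opCore ℓ Q ≠ ⊥ → ∀ e : G → F, YY ℓ Q e = 0

/-- TRN: the inner sum of a normal chain is the relative sum of its stabiliser. -/
def TrnStmt : Prop := ∀ (ℓ : ℕ) (F : Type) [Field F], GoodF ℓ F → ∀ (G : Type) [Group G] [Finite G]
  (N₂ : Subgroup G), N₂.Normal → ∀ e : G → F, IsIdem e →
  ∀ c ∈ chainsOn (psubIn ℓ (⊤ : Subgroup G)) ⊥, NormalChain c →
    tsum ℓ N₂ (fun X => (Nat.card X : ℤ) * (lnum X e : ℤ)) c =
      YY ℓ ((cent N₂ c).subgroupOf (stab c)) (fun t : stab c => br (top c) e t)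

/-! ## Positivity -/

/-- PS1: positivity passes to the local subgroups. -/
def Ps1Stmt : Prop := ∀ (ℓ : ℕ) (F : Type) [Field F], GoodF ℓ F → ∀ (G : Type) [Group G] [Finite G]
  (P Q : Subgroup G), IsPGroup ℓ P → Q.Normal → P ⊓ Q = ⊥ → ∀ e : G → F, IsIdem e → Pos ℓ e Q →
  ∀ X : Subgroup G, Subgroup.centralizer (P : Set G) ≤ X → X ≤ Subgroup.normalizer (P : Set G) →
    Pos ℓ (fun t : X => br P e t) ((Subgroup.centralizer (P : Set G) ⊓ Q).subgroupOf X)

/-- PS2: positivity over a normal subgroup implies positivity. -/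
def Ps2Stmt : Prop := ∀ (ℓ : ℕ) (F : Type) [Field F], GoodF ℓ F → ∀ (G : Type) [Group G] [Finite G]
  (Q : Subgroup G), Q.Normal → ∀ e : G → F, IsIdem e → Pos ℓ e Q → Pos ℓ e ⊤

/-- PS3: a stable block is of defect zero or everything above it is positive. -/
def Ps3Stmt : Prop := ∀ (ℓ : ℕ) (F : Type) [Field F], GoodF ℓ F → ∀ (G : Type) [Group G] [Finite G]
  (N : Subgroup G), N.Normal → ∀ b : N → F, IsBlk b → stabF (ext0 N b) = ⊤ →
  ∀ e : G → F, IsIdem e → mulF e (ext0 N b) = e →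
    (¬ DZ ℓ b → Pos ℓ e N) ∧ (DZ ℓ b → Pos ℓ e N → e = 0)

/-- PS4: in an `ℓ'`-group every block is of defect zero. -/
def Ps4Stmt : Prop := ∀ (ℓ : ℕ) (F : Type) [Field F], GoodF ℓ F → ∀ (N : Type) [Group N] [Finite N],
  ¬ ℓ ∣ Nat.card N → ∀ b : N → F, IsCl b → DZ ℓ b

/-- PS5: positivity is inherited by smaller idempotents. -/
def Ps5Stmt : Prop := ∀ (ℓ : ℕ) (F : Type) [Field F], GoodF ℓ F → ∀ (G : Type) [Group G] [Finite G]
  (Q : Subgroup G), Q.Normal → ∀ e f : G → F, IsIdem e → IsIdem f → mulF e f = f → Pos ℓ e Q →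
    Pos ℓ f Q

/-! ## Idempotents -/

/-- IDM: existence of blocks below an idempotent, blocks of normal subgroups. -/
def IdmStmt : Prop := ∀ (ℓ : ℕ) (F : Type) [Field F], GoodF ℓ F → ∀ (G : Type) [Group G] [Finite G]
  (N : Subgroup G), N.Normal → ∀ e : G → F, IsIdem e → e ≠ 0 →
    (∃ b : N → F, IsBlk b ∧ mulF e (ext0 N b) ≠ 0) ∧
    (IsBlk e → ∀ b : N → F, IsBlk b → mulF e (ext0 N b) ≠ 0 → stabF (ext0 N b) = ⊤ →
      mulF e (ext0 N b) = e)

/-- ADD: additivity, in the form of a reduction to blocks. -/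
def AddStmt : Prop := ∀ (ℓ : ℕ) (F : Type) [Field F], GoodF ℓ F → ∀ (G : Type) [Group G] [Finite G]
  (Q : Subgroup G), Q.Normal → ∀ e : G → F, IsIdem e →
  (∀ f : G → F, IsBlk f → mulF e f = f → YY ℓ Q f = 0) → YY ℓ Q e = 0

/-! ## Group theory -/

/-- GR1: an abelian chief factor without normal `ℓ`-subgroup gives an `ℓ'`-group. -/
def Gr1Stmt : Prop := ∀ (ℓ : ℕ) [Fact ℓ.Prime] (G : Type) [Group G] [Finite G] (N : Subgroup G),
  N.Normal → opCore ℓ N = ⊥ → (∀ x ∈ N, ∀ y ∈ N, x * y * x⁻¹ * y⁻¹ ∈ Subgroup.center G) →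
    ¬ ℓ ∣ Nat.card N

/-- GR2: existence of a chief factor. -/
def Gr2Stmt : Prop := ∀ (G : Type) [Group G] [Finite G] (N : Subgroup G), N.Normal →
  ¬ N ≤ Subgroup.center G → ∃ N₂ : Subgroup G, N₂ ≤ N ∧
    N ⊓ Subgroup.center G ≤ N₂ ∧ Chief N₂

/-- MUS: inequalities for the measure. -/
def MusStmt : Prop := ∀ (G : Type) [Group G] [Finite G] (N N₂ : Subgroup G), N.Normal →
  N₂.Normal → N₂ ≤ N → N ⊓ Subgroup.center G ≤ N₂ → ¬ N₂ ≤ Subgroup.center G →
  (N₂ ≠ N → mu N₂ < mu N) ∧ (N₂ ≠ N → N₂.relIndex N < mu N) ∧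
  (∀ T : Subgroup G, Subgroup.center G ≤ T → mu (N.subgroupOf T) ≤ mu N) ∧
  (∀ T N' : Subgroup G, Subgroup.center G ≤ T → N' ≤ N₂ → mu (N'.subgroupOf T) ≤ mu N₂)

end Pool.Agent.PP
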