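import Pool.Agent.Helper96_PP.Trn
import Pool.Agent.Helper66_PP.Pos1
import Pool.Agent.Helper20_PP.Nls
import Pool.Agent.Helper94_PP.Pos2
import Pool.Agent.Helper67_PP.Stmts
import Pool.Agent.Helper46_PP.Top

/-!
# Squad PP, module FNL: the end of the proof of S1, in the group `D`
-/

open scoped BigOperators

noncomputable section

namespace Pool.Agent.PP.H96

open Pool.Agent.Helper51_AWC Pool.Agent.Helper79_WRA Pool.Agent.Helper79_WRA.H91 Pool.Agent.PP

/-- the centraliser of a chain stabilises it -/
theorem centralizer_top_le {G : Type} [Group G] {c : Finset (Subgroup G)}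
    (hc : ∀ D ∈ c, D ≤ top c) : Subgroup.centralizer ((top c : Subgroup G) : Set G) ≤ stab c := by
  intro g hgc
  rw [H94.mem_stab']
  intro D hD
  have h5 : g ∈ Subgroup.centralizer ((D : Subgroup G) : Set G) :=
    Subgroup.centralizer_le (hc D hD) hgc
  rw [Subgroup.mem_normalizer_iff]
  intro x
  constructor
  · intro hx
    have := Subgroup.mem_centralizer_iff.1 h5 x hx
    rw [← this, mul_inv_cancel_right]
    exact hx
  · intro hx
    have := Subgroup.mem_centralizer_iff.1 h5 _ hx
    have h7 : x = g * x * g⁻¹ := by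
      have h8 : g * x * g⁻¹ * g = g * (g * x * g⁻¹) := this
      rw [inv_mul_cancel_right] at h8
      exact mul_left_cancel h8
    rw [h7]
    exact hx

/-- The relative sum is the full sum when the groups `C_M(P)`, `P ≠ 1`, do not contribute. -/
theorem rel_eq_top {ℓ : ℕ} [Fact ℓ.Prime] {F : Type} [Field F] (hF : GoodF ℓ F) {D : Type}
    [Group D] [Finite D] (M : Subgroup D) (hM : M.Normal) (f : D → F) (hf : IsIdem f)
    (h : ∀ c ∈ chainsOn (psubIn ℓ (⊤ : Subgroup D)) ⊥, NormalChain c → top c ⊓ M = ⊥ →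
      top c ≠ ⊥ → YY ℓ ((cent M c).subgroupOf (stab c)) (fun t : stab c => br (top c) f t) = 0) :
    YY ℓ ⊤ f = YY ℓ M f := by
  classical
  have h3 := rcn ℓ D ⊤ M inferInstance hM le_top (fun X => (Nat.card X : ℤ) * (lnum X f : ℤ))
  have h4 : YY ℓ ⊤ f = ∑ d ∈ chainsOn (psubIn ℓ (⊤ : Subgroup D)) ⊥, (-1) ^ (d.card + 1) *
      (fun X : Subgroup D => (Nat.card X : ℤ) * (lnum X f : ℤ)) (stab d) := rfl
  rw [h4, h3]
  have hb : ({⊥} : Finset (Subgroup D)) ∈ (chainsOn (psubIn ℓ (⊤ : Subgroup D)) ⊥).filter
      (fun c => NormalChain c ∧ ∀ E ∈ c, E ⊓ M = ⊥) := by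
    rw [Finset.mem_filter, mem_chainsOn]
    refine ⟨⟨?_, Finset.mem_singleton_self _, ?_⟩, ?_, ?_⟩
    · intro E hE
      rw [Finset.mem_singleton] at hE
      rw [hE, mem_psubIn]
      exact ⟨bot_le, IsPGroup.of_bot⟩
    · rw [Finset.coe_singleton]
      exact Set.Subsingleton.isChain Set.subsingleton_singleton
    · intro E hE
      rw [Finset.mem_singleton] at hE
      rw [hE]
      intro x _
      rw [Subgroup.mem_normalizer_iff]
      intro y
      rw [Subgroup.mem_bot, Subgroup.mem_bot, mul_inv_eq_one, mul_eq_left]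
    · intro E hE
      rw [Finset.mem_singleton] at hE
      rw [hE, bot_inf_eq]
  rw [Finset.sum_eq_single_of_mem _ hb]
  · have hcent : cent M ({⊥} : Finset (Subgroup D)) = M := by
      have hbz : Subgroup.centralizer ((⊥ : Subgroup D) : Set D) = ⊤ := by
        ext x
        simp [Subgroup.mem_centralizer_iff]
      apply le_antisymm inf_le_left
      apply le_inf le_rfl
      refine le_iInf₂ fun E hE => ?_
      rw [Finset.mem_singleton] at hE
      rw [hE, hbz]
      exact le_top
    have hs : stab ({⊥} : Finset (Subgroup D)) = ⊤ := by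
      ext g
      rw [mem_stab]
      simp only [Finset.mem_singleton, forall_eq, Subgroup.mem_top, iff_true]
      unfold conjS
      exact Subgroup.map_bot _
    unfold Helper79_WRA.tsum
    rw [hcent, hs, Finset.card_singleton]
    simp only [top_inf_eq]
    rw [YY]
    norm_num
  · intro c hc hcb
    rw [Finset.mem_filter] at hc
    obtain ⟨hc1, hc2, hc3⟩ := hc
    have hcm := mem_chainsOn.1 hc1
    obtain ⟨t1, t2⟩ := H94.top_mem hcm.2.2 ⟨_, hcm.2.1⟩
    have htop : top c ≠ ⊥ := by
      intro ht
      apply hcb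
      ext E
      rw [Finset.mem_singleton]
      constructor
      · intro hE
        rw [← le_bot_iff, ← ht]
        exact t2 E hE
      · intro hE
        rw [hE]
        exact hcm.2.1
    rw [trn H20.nls ℓ F hF D M hM f hf c hc1 hc2, h c hc1 hc2 (hc3 _ t1) htop, mul_zero]

/-- FNL -/
theorem fnl : H67.FnlStmt := by
  intro ℓ _ F _ hF D _ _ M hM hCM hZ hZM hg hlt f hf hp htop
  have h0 : YY ℓ ⊤ f = 0 := htop (H94.pos2 ℓ F hF D M hM f hf hp)
  rw [← rel_eq_top hF M hM f hf, h0]
  intro c hc1 hc2 hc3 hc4
  have hcm := mem_chainsOn.1 hc1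
  obtain ⟨t1, t2⟩ := H94.top_mem hcm.2.2 ⟨_, hcm.2.1⟩
  have htp : IsPGroup ℓ (top c) := (mem_psubIn.1 (hcm.1 t1)).2
  have hX1 := centralizer_top_le t2
  have hX2 : stab c ≤ Subgroup.normalizer ((top c : Subgroup D) : Set D) := by
    intro x hx
    exact (H94.mem_stab'.1 hx) _ t1
  have hidem : IsIdem (fun t : stab c => br (top c) f t) :=
    (H20.brm ℓ F hF D (top c) (stab c) htp hX1 hX2).2.2 f hf
  have hcent : cent M c = Subgroup.centralizer ((top c : Subgroup D) : Set D) ⊓ M :=
    H46.cent_eq hc1 M
  have hposc : Pos ℓ (fun t : stab c => br (top c) f t) ((cent M c).subgroupOf (stab c)) := by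
    rw [hcent]
    exact H66.ps1 ℓ F hF D (top c) M htp hM hc3 f hf hp (stab c) hX1 hX2
  have hnorm : ((cent M c).subgroupOf (stab c)).Normal := by
    constructor
    intro x hx g
    rw [Subgroup.mem_subgroupOf] at hx ⊢
    exact Pool.Agent.Helper79_WRA.H46.conj_mem_cent hM g.2 hx
  have hcle : cent M c ≤ M := inf_le_left
  have hZX : Subgroup.center D ≤ stab c :=
    (Subgroup.center_le_centralizer _).trans hX1
  have hZc : Subgroup.center D ≤ cent M c := by
    rw [hcent]
    exact le_inf (Subgroup.center_le_centralizer _) hZM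
  have hlt' : cent M c < M := by
    refine lt_of_le_of_ne hcle ?_
    intro h
    apply hc4
    -- `P` centralises `M`, so `P ≤ Z(D)` is an `ℓ'`-group
    have h1 : top c ≤ Subgroup.center D := by
      rw [← hCM]
      intro x hx
      rw [Subgroup.mem_centralizer_iff]
      intro y hy
      have h2 : y ∈ cent M c := by rw [h]; exact hy
      exact ((H91.mem_cent.1 h2).2 _ t1 x hx).symm
    have h2 : Nat.card (top c) ∣ Nat.card (Subgroup.center D) := Subgroup.card_dvd_of_le h1
    by_contra hne
    have h3 : Nontrivial (top c) := (Subgroup.nontrivial_iff_ne_bot _).2 hne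
    obtain ⟨n, hn, hn'⟩ := htp.nontrivial_iff_card.1 h3
    apply hZ
    refine dvd_trans ?_ h2
    rw [hn']
    exact dvd_pow_self _ hn.ne'
  have hmu : mu ((cent M c).subgroupOf (stab c)) < mu M := by
    have h1 : mu ((cent M c).subgroupOf (stab c)) ≤ (Subgroup.center D).relIndex (cent M c) := by
      have h2 : ((Subgroup.center D).subgroupOf (stab c)) ≤ Subgroup.center (stab c) := by
        intro x hx
        rw [Subgroup.mem_center_iff]
        intro y
        exact Subtype.ext (Subgroup.mem_center_iff.1 hx y)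
      have h3 : ((Subgroup.center D).subgroupOf (stab c)).relIndex
          ((cent M c).subgroupOf (stab c)) = (Subgroup.center D).relIndex (cent M c) :=
        Subgroup.relIndex_subgroupOf (hcent ▸ (inf_le_left.trans hX1))
      unfold mu
      rw [← h3]
      apply Nat.le_of_dvd
      · exact Nat.pos_of_ne_zero Subgroup.index_ne_zero_of_finite
      · exact Subgroup.relIndex_dvd_of_le_left _ h2
    refine lt_of_le_of_lt h1 ?_
    unfold mu
    have h4 := Subgroup.relIndex_mul_relIndex _ _ _ hZc hcle
    have h5 : (cent M c).relIndex M ≠ 1 := by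
      intro h6
      rw [Subgroup.relIndex_eq_one] at h6
      exact absurd h6 (not_le_of_gt hlt')
    have h6 : (cent M c).relIndex M ≠ 0 := Subgroup.index_ne_zero_of_finite
    have h7 : (Subgroup.center D).relIndex (cent M c) ≠ 0 := Subgroup.index_ne_zero_of_finite
    rw [← h4]
    have h8 : 2 ≤ (cent M c).relIndex M := by omega
    nlinarith [Nat.pos_of_ne_zero h7]
  exact hlt _ _ hnorm hmu (hg.subgroupOf _ hcle) _ hidem hposc

end Pool.Agent.PP.H96
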