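import Pool.Agent.Helper18_PP.Good
import Pool.Agent.Helper66_PP.StmtsLQ

/-!
# Squad PP, module LQV: normal subgroups of nearly simple groups

`D` nearly simple, `M` the preimage of the socle, `D₀` a normal subgroup over `M` such that
`D₀ / M` is an `ℓ'`-group: `D₀` is nearly simple with outer part an `ℓ'`-group.
-/

open scoped BigOperators

noncomputable section

namespace Pool.Agent.PP.H96

open Pool.Agent.Helper51_AWC Pool.Agent.Helper79_WRA Pool.Agent.PP

section

variable {D S : Type} [Group D] [Finite D] [Group S] [Finite S]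

theorem Involves.trans' {H A B : Type} [Group H] [Group A] [Group B] (h : Involves H A)
    (h' : Involves A B) : Involves H B := by
  obtain ⟨A₁, f, hf⟩ := h
  exact (h'.of_surjective f hf).of_subgroup

/-- the preimage of the socle -/
theorem map_eq_socle (hS : NonabSimple S) {T : Subgroup (D ⧸ Subgroup.center D)}
    (hT : IsSocle T S) {M : Subgroup D} (hM : M.Normal) (hZM : Subgroup.center D ≤ M)
    (hmu : mu M = Nat.card S) : M.map (QuotientGroup.mk' (Subgroup.center D)) = T := by
  have hn : (M.map (QuotientGroup.mk' (Subgroup.center D))).Normal :=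
    hM.map _ (QuotientGroup.mk'_surjective _)
  have hcard : Nat.card (M.map (QuotientGroup.mk' (Subgroup.center D))) = Nat.card S := by
    rw [← hmu]
    have h1 := Subgroup.relIndex_ker (K := M) (QuotientGroup.mk' (Subgroup.center D))
    rw [QuotientGroup.ker_mk'] at h1
    exact h1.symm
  have hne : M.map (QuotientGroup.mk' (Subgroup.center D)) ≠ ⊥ := by
    intro h
    rw [h, Subgroup.card_bot] at hcard
    have h1 := hS.1.toNontrivial
    have h2 : 1 < Nat.card S := Finite.one_lt_card
    omega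
  have hle := hT.le hn hne
  obtain ⟨e⟩ := hT.iso
  have hcT : Nat.card T = Nat.card S := Nat.card_congr e.toEquiv
  exact (Subgroup.eq_of_le_of_card_ge hle (by rw [hcard, hcT])).symm

theorem mem_of_mk {M : Subgroup D} (hZM : Subgroup.center D ≤ M) {x : D}
    (hx : QuotientGroup.mk' (Subgroup.center D) x ∈
      M.map (QuotientGroup.mk' (Subgroup.center D))) : x ∈ M := by
  obtain ⟨m, hm, h⟩ := hx
  have h1 : m⁻¹ * x ∈ Subgroup.center D := by
    have := QuotientGroup.eq.1 h
    exact this
  have h2 := M.mul_mem hm (hZM h1)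
  rwa [mul_inv_cancel_left] at h2

/-- the centre of a normal subgroup over `M` -/
theorem center_sub {M D₀ : Subgroup D}
    (hCM : Subgroup.centralizer (M : Set D) = Subgroup.center D) (hle : M ≤ D₀) :
    Subgroup.center D₀ = (Subgroup.center D).subgroupOf D₀ := by
  apply le_antisymm
  · intro x hx
    rw [Subgroup.mem_subgroupOf, ← hCM, Subgroup.mem_centralizer_iff]
    intro m hm
    exact congrArg Subtype.val (Subgroup.mem_center_iff.1 hx ⟨m, hle hm⟩)
  · intro x hx
    rw [Subgroup.mem_center_iff]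
    intro y
    exact Subtype.ext (Subgroup.mem_center_iff.1 (Subgroup.mem_subgroupOf.1 hx) y)

/-- conjugation on a normal subgroup -/
def conjN {D₀ : Subgroup D} (hn : D₀.Normal) (g : D) : D₀ ≃* D₀ where
  toFun x := ⟨g * x * g⁻¹, hn.conj_mem x x.2 g⟩
  invFun x := ⟨g⁻¹ * x * g, by
    have := hn.conj_mem x x.2 g⁻¹
    rwa [inv_inv] at this⟩
  left_inv x := by apply Subtype.ext; simp [mul_assoc]
  right_inv x := by apply Subtype.ext; simp [mul_assoc]
  map_mul' x y := by apply Subtype.ext; simp [mul_assoc]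

theorem opCore_normal {ℓ : ℕ} [Fact ℓ.Prime] (hO : opCore ℓ D = ⊥) {D₀ : Subgroup D}
    (hn : D₀.Normal) : opCore ℓ D₀ = ⊥ := by
  obtain ⟨o1, o2, -⟩ := opCore_spec ℓ D₀
  have hN : ((opCore ℓ D₀).map D₀.subtype).Normal := by
    constructor
    intro x hx g
    obtain ⟨y, hy, rfl⟩ := hx
    have h1 := opCore_equiv ℓ (conjN hn g)
    rw [mapE_apply] at h1
    have h2 : conjN hn g y ∈ opCore ℓ D₀ := by
      rw [← h1]
      exact ⟨y, hy, rfl⟩
    exact ⟨conjN hn g y, h2, rfl⟩
  have h3 := (opCore_spec ℓ D).2.2 _ hN (o2.map _)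
  rw [hO, le_bot_iff, Subgroup.map_eq_bot_iff_of_injective _ D₀.subtype_injective] at h3
  exact h3

end

/-- LQV -/
theorem lqv {ℓ : ℕ} [Fact ℓ.Prime] {D S : Type} [Group D] [Finite D] [Group S] [Finite S]
    (hS : NonabSimple S) (hO : opCore ℓ D = ⊥) (hns : NearlySimple D S) {M : Subgroup D}
    (hM : M.Normal) (hCM : Subgroup.centralizer (M : Set D) = Subgroup.center D)
    (hZM : Subgroup.center D ≤ M) (hmu : mu M = Nat.card S) :
    (∃ n : ℕ, (⊤ : Subgroup D).lowerCentralSeries n ≤ M) ∧
    ∀ D₀ : Subgroup D, M ≤ D₀ → D₀.Normal → ¬ ℓ ∣ M.relIndex D₀ →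
      opCore ℓ D₀ = ⊥ ∧ NearlySimpleL ℓ D₀ S ∧
      Subgroup.center D₀ = (Subgroup.center D).subgroupOf D₀ ∧
      (∀ (H : Type) [Group H], Involves H (D ⧸ Subgroup.center D) →
        Involves H (D₀ ⧸ Subgroup.center D₀)) ∧
      ∀ (F : Type) [Field F] (f : D → F),
        (∀ z ∈ Subgroup.center D, z ≠ 1 → ∃ c : F, c ≠ 1 ∧ ∀ x, f (z * x) = c * f x) →
        ∀ z ∈ Subgroup.center D₀, z ≠ 1 → ∃ c : F, c ≠ 1 ∧ ∀ x : D₀, f ((z * x : D₀) : D) =
          c * f x := by
  obtain ⟨T, hT1, hT2, hT3, n, hn⟩ := hns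
  have hT : IsSocle T S := ⟨hS, hT1, hT2, hT3⟩
  have hMT := map_eq_socle hS hT hM hZM hmu
  refine ⟨⟨n, ?_⟩, ?_⟩
  · intro x hx
    apply mem_of_mk hZM
    rw [hMT]
    exact hn (lcs_mem _ hx)
  · intro D₀ hle hD₀ hdvd
    have hc := center_sub hCM hle
    let φ : D₀ ⧸ Subgroup.center D₀ →* D ⧸ Subgroup.center D :=
      QuotientGroup.map (Subgroup.center D₀) (Subgroup.center D) D₀.subtype (by
        rw [hc]
        exact le_refl _)
    have hφ : Function.Injective φ := by
      rw [injective_iff_map_eq_one]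
      intro x hx
      obtain ⟨x, rfl⟩ := QuotientGroup.mk'_surjective _ x
      have h1 : QuotientGroup.mk' (Subgroup.center D) (x : D) = 1 := hx
      have h2 : (x : D) ∈ Subgroup.center D := (QuotientGroup.eq_one_iff _).1 h1
      have h3 : x ∈ Subgroup.center D₀ := by rw [hc]; exact h2
      exact (QuotientGroup.eq_one_iff _).2 h3
    let T₀ : Subgroup (D₀ ⧸ Subgroup.center D₀) :=
      (M.subgroupOf D₀).map (QuotientGroup.mk' (Subgroup.center D₀))
    have hcomp : φ.comp (QuotientGroup.mk' (Subgroup.center D₀)) =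
        (QuotientGroup.mk' (Subgroup.center D)).comp D₀.subtype := by
      ext x
      rfl
    have hT₀ : T₀.map φ = T := by
      rw [← hMT]
      change ((M.subgroupOf D₀).map (QuotientGroup.mk' (Subgroup.center D₀))).map φ = _
      rw [Subgroup.map_map, hcomp, ← Subgroup.map_map, Subgroup.map_subgroupOf_eq_of_le hle]
    have hcl : Subgroup.center D₀ ≤ M.subgroupOf D₀ := by
      rw [hc]
      intro x hx
      exact hZM hx
    refine ⟨opCore_normal hO hD₀, ⟨T₀, ?_, ?_, ?_, ?_, ?_⟩, hc, ?_, ?_⟩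
    · exact (hM.subgroupOf D₀).map _ (QuotientGroup.mk'_surjective _)
    · rw [eq_bot_iff]
      intro x hx
      rw [Subgroup.mem_bot]
      apply hφ
      rw [map_one]
      have h1 : φ x ∈ Subgroup.centralizer (T : Set (D ⧸ Subgroup.center D)) := by
        rw [Subgroup.mem_centralizer_iff]
        intro t ht
        have ht' : t ∈ T₀.map φ := by rw [hT₀]; exact ht
        obtain ⟨s, hs, rfl⟩ := ht'
        rw [← map_mul, ← map_mul, Subgroup.mem_centralizer_iff.1 hx s hs]
      rw [hT2, Subgroup.mem_bot] at h1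
      exact h1
    · obtain ⟨e⟩ := hT3
      exact ⟨(T₀.equivMapOfInjective φ hφ).trans ((MulEquiv.subgroupCongr hT₀).trans e)⟩
    · refine ⟨n, fun x hx => ?_⟩
      have h1 : φ x ∈ T := hn (lcs_mem φ hx)
      rw [← hT₀] at h1
      obtain ⟨y, hy, hyx⟩ := h1
      rwa [← hφ hyx]
    · have h1 : T₀.index = (M.subgroupOf D₀).index := by
        refine Subgroup.index_map_eq _ (QuotientGroup.mk'_surjective _) ?_
        rw [QuotientGroup.ker_mk']
        exact hcl
      rw [h1]
      exact hdvd
    · intro H _ hH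
      exact Involves.trans' hH ((Involves.refl _).of_injective φ hφ)
    · intro F _ f hf z hz hz1
      rw [hc] at hz
      obtain ⟨c, hc1, hc2⟩ := hf z hz (fun h => hz1 (Subtype.ext h))
      exact ⟨c, hc1, fun x => hc2 x⟩

end Pool.Agent.PP.H96
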