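import Pool.Agent.Helper96_PP.Rch
import Pool.Agent.Helper75_PP.Transport

/-!
# Squad PP, modules YZR and TRN
-/

open scoped BigOperators

noncomputable section

namespace Pool.Agent.PP.H96

open Pool.Agent.Helper51_AWC Pool.Agent.Helper79_WRA Pool.Agent.Helper79_WRA.H91 Pool.Agent.PP

/-- YZR -/
theorem yzr : YzrStmt := by
  intro ℓ F _ hℓ G _ _ Q hQ hO e
  have : Fact ℓ.Prime := ⟨hℓ⟩
  have hb : Subgroup.centralizer ((⊥ : Subgroup G) : Set G) = ⊤ := by
    ext x
    simp [Subgroup.mem_centralizer_iff]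
  have hc : cent Q {⊥} = Q := by
    apply le_antisymm inf_le_left
    apply le_inf le_rfl
    refine le_iInf₂ fun D hD => ?_
    rw [Finset.mem_singleton] at hD
    rw [hD, hb]
    exact le_top
  have hs : stab ({⊥} : Finset (Subgroup G)) = ⊤ := by
    ext g
    rw [mem_stab]
    simp only [Finset.mem_singleton, forall_eq, Subgroup.mem_top, iff_true]
    unfold conjS
    exact Subgroup.map_bot _
  have h := H46.tzero H91.cone ℓ G Q hQ
    (fun X => (Nat.card X : ℤ) * (lnum X e : ℤ)) {⊥} (by rw [hc]; exact hO)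
  unfold Helper79_WRA.tsum at h
  rw [hc, hs] at h
  simp only [top_inf_eq] at h
  exact h

/-- the `ℓ`-number of a subgroup normalising the `ℓ`-subgroup `P` which it contains -/
theorem lnum_br {ℓ : ℕ} {F : Type} [Field F] (hF : GoodF ℓ F) (hnls : NlsStmt) {G : Type} [Group G]
    [Finite G] {P X : Subgroup G} (hP : IsPGroup ℓ P) (hPX : P ≤ X)
    (hXP : X ≤ Subgroup.normalizer (P : Set G)) {e : G → F} (he : IsCl e) :
    lnum X e = lnum X (br P e) := by
  have hn : (P.subgroupOf X).Normal := (Subgroup.normal_subgroupOf_iff_le_normalizer hPX).2 hXP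
  have hp : IsPGroup ℓ (P.subgroupOf X) := hP.comap_of_injective X.subtype X.subtype_injective
  have hcl : IsCl (fun t : X => e t) := by
    intro x y
    exact he x y
  have hbr : br (P.subgroupOf X) (fun t : X => e t) = fun t : X => br P e t := by
    funext t
    unfold br
    have hiff : t ∈ Subgroup.centralizer ((P.subgroupOf X : Subgroup X) : Set X) ↔
        (t : G) ∈ Subgroup.centralizer (P : Set G) := by
      rw [Subgroup.mem_centralizer_iff, Subgroup.mem_centralizer_iff]
      constructor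
      · intro h y hy
        exact congrArg Subtype.val (h ⟨y, hPX hy⟩ hy)
      · intro h y hy
        exact Subtype.ext (h y hy)
    by_cases h : (t : G) ∈ Subgroup.centralizer (P : Set G)
    · rw [if_pos h, if_pos (hiff.2 h)]
    · rw [if_neg h, if_neg (fun h2 => h (hiff.1 h2))]
  unfold lnum
  congr 1
  ext f
  constructor
  · rintro ⟨hf, h2⟩
    refine ⟨hf, ?_⟩
    obtain ⟨n, ρ, hρ, rfl⟩ := hf
    have h3 := ((hnls ℓ F hF X (P.subgroupOf X) hn hp n ρ hρ).2 _ hcl).2
    rw [hbr] at h3
    rw [← h3]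
    exact h2
  · rintro ⟨hf, h2⟩
    refine ⟨hf, ?_⟩
    obtain ⟨n, ρ, hρ, rfl⟩ := hf
    have h3 := ((hnls ℓ F hF X (P.subgroupOf X) hn hp n ρ hρ).2 _ hcl).2
    rw [hbr] at h3
    rw [h3]
    exact h2

/-- TRN -/
theorem trn (hnls : NlsStmt) : TrnStmt := by
  intro ℓ F _ hF G _ _ N hN e he c hc hnc
  have : Fact ℓ.Prime := ⟨hF.prime⟩
  obtain ⟨c1, c2, c3⟩ := mem_chainsOn.1 hc
  obtain ⟨t1, t2⟩ := H94.top_mem c3 ⟨_, c2⟩
  have htp : IsPGroup ℓ (top c) := (mem_psubIn.1 (c1 t1)).2
  have hle : cent N c ≤ stab c := by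
    intro x hx
    rw [H91.mem_cent] at hx
    rw [mem_stab]
    intro D hD
    ext y
    rw [mem_conjS]
    constructor
    · intro hy
      have h1 := hx.2 D hD _ hy
      have h2 : x * (x⁻¹ * y * x) * x⁻¹ = x⁻¹ * y * x := by
        rw [← h1]; group
      have h3 : y = x⁻¹ * y * x := by
        rw [← h2]; group
      rw [h3]; exact hy
    · intro hy
      have h1 := hx.2 D hD _ hy
      have h2 : x⁻¹ * y * x = y := by
        rw [mul_assoc, h1]; group
      rw [h2]; exact hy
  rw [H75.YY_subgroup ℓ (stab c) (cent N c) hle (br (top c) e)]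
  unfold Helper79_WRA.tsum
  apply Finset.sum_congr rfl
  intro v hv
  obtain ⟨v1, v2, v3⟩ := mem_chainsOn.1 hv
  have hPX : top c ≤ stab v ⊓ stab c := by
    refine le_inf ?_ ?_
    · intro x hx
      rw [H94.mem_stab']
      intro D hD
      have hDc := (mem_psubIn.1 (v1 hD)).1
      rw [Subgroup.mem_normalizer_iff]
      intro y
      have hcomm : ∀ y ∈ D, x * y = y * x := by
        intro y hy
        exact (H91.mem_cent.1 (hDc hy)).2 _ t1 x hx
      constructor
      · intro hy
        rw [hcomm y hy, mul_inv_cancel_right]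
        exact hy
      · intro hy
        have h1 := hcomm _ hy
        have h2 : x * (x * y * x⁻¹) * x⁻¹ = x * y * x⁻¹ := by
          rw [h1]; group
        have h3 : x * y * x⁻¹ = y := by
          have : x⁻¹ * (x * (x * y * x⁻¹) * x⁻¹) * x = x⁻¹ * (x * y * x⁻¹) * x :=
            congrArg (fun z => x⁻¹ * z * x) h2
          calc x * y * x⁻¹ = x⁻¹ * (x * (x * y * x⁻¹) * x⁻¹) * x := by group
            _ = x⁻¹ * (x * y * x⁻¹) * x := this
            _ = y := by group
        rwa [h3] at hy
    · intro x hx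
      rw [H94.mem_stab']
      intro D hD
      exact hnc D hD hx
  have hXP : stab v ⊓ stab c ≤ Subgroup.normalizer (top c : Set G) := by
    intro x hx
    exact (H94.mem_stab'.1 hx.2) _ t1
  rw [inf_comm (stab c) (stab v)]
  change _ * (_ * ((lnum (stab v ⊓ stab c) e : ℕ) : ℤ)) = _
  rw [lnum_br hF hnls htp hPX hXP he.1]

end Pool.Agent.PP.H96
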