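import Pool.Agent.Helper18_PP.Stm
import Pool.Agent.Helper66_PP.StmtsF
import Pool.Agent.Helper67_PP.S1n
import Pool.Agent.Helper63_PP.Str

/-!
# Squad PP, module STM: reduction to stem groups, second part
-/

open scoped BigOperators

set_option linter.unusedSectionVars false

noncomputable section

namespace Pool.Agent.PP.H96

open Pool.Agent.Helper51_AWC Pool.Agent.Helper79_WRA Pool.Agent.PP Pool.Agent.PP.H18

/-- transport of the conditions on the group `D / Z(D)` -/
theorem nf_equiv {ℓ : ℕ} {A B S : Type} [Group A] [Group B] [Group S] (φ : A ≃* B)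
    (h : ∃ T : Subgroup A, T.Normal ∧ Subgroup.centralizer (T : Set A) = ⊥ ∧ Nonempty (T ≃* S) ∧
      (∃ n : ℕ, (⊤ : Subgroup A).lowerCentralSeries n ≤ T) ∧
      ¬ ℓ ∣ T.index ∧ ∃ a b : A, T ⊔ Subgroup.closure {a, b} = ⊤) :
    ∃ T : Subgroup B, T.Normal ∧ Subgroup.centralizer (T : Set B) = ⊥ ∧ Nonempty (T ≃* S) ∧
      (∃ n : ℕ, (⊤ : Subgroup B).lowerCentralSeries n ≤ T) ∧
      ¬ ℓ ∣ T.index ∧ ∃ a b : B, T ⊔ Subgroup.closure {a, b} = ⊤ := by
  obtain ⟨T, h1, h2, ⟨e⟩, ⟨n, hn⟩, h5, a, b, hab⟩ := h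
  refine ⟨T.map φ.toMonoidHom, h1.map _ φ.surjective, ?_, ⟨(φ.subgroupMap T).symm.trans e⟩,
    ⟨n, fun y hy => ?_⟩, ?_, φ a, φ b, ?_⟩
  · rw [eq_bot_iff]
    intro y hy
    have h3 : φ.symm y ∈ Subgroup.centralizer (T : Set A) := by
      rw [Subgroup.mem_centralizer_iff]
      intro t ht
      have h4 := Subgroup.mem_centralizer_iff.1 hy (φ t) ⟨t, ht, rfl⟩
      apply φ.injective
      rw [map_mul, map_mul, φ.apply_symm_apply]
      exact h4
    rw [h2, Subgroup.mem_bot] at h3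
    rw [Subgroup.mem_bot, ← φ.apply_symm_apply y, h3, map_one]
  · have h3 := hn (lcs_mem φ.symm.toMonoidHom hy)
    exact ⟨_, h3, φ.apply_symm_apply y⟩
  · rw [Subgroup.index_map_of_bijective (f := φ.toMonoidHom) φ.bijective]
    exact h5
  · have h3 : Subgroup.closure {φ a, φ b} = (Subgroup.closure {a, b}).map φ.toMonoidHom := by
      rw [MonoidHom.map_closure]
      congr 1
      rw [Set.image_pair]
      rfl
    rw [h3, ← Subgroup.map_sup, hab]
    exact Subgroup.map_top_of_surjective _ φ.surjective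

/-- groups without elements of order `ℓ` -/
theorem not_dvd_of {ℓ : ℕ} [Fact ℓ.Prime] {E : Type} [Group E] [Finite E] (K : Subgroup E)
    (h : ∀ x ∈ K, x ^ ℓ = 1 → x = 1) : ¬ ℓ ∣ Nat.card K := by
  intro hd
  obtain ⟨x, hx⟩ := exists_prime_orderOf_dvd_card' ℓ hd
  have h1 : x ^ ℓ = 1 := by rw [← hx]; exact pow_orderOf_eq_one x
  have h2 : (x : E) = 1 := h x x.2 (congrArg Subtype.val h1)
  have h3 : x = 1 := Subtype.ext h2
  rw [h3, orderOf_one] at hx
  exact (Fact.out : ℓ.Prime).one_lt.ne hx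

theorem units_pow {ℓ : ℕ} {F : Type} [Field F] (hF : GoodF ℓ F) (c : Fˣ) (h : c ^ ℓ = 1) :
    c = 1 := by
  have := hF.char
  have : Fact ℓ.Prime := ⟨hF.prime⟩
  have h1 : (c : F) ^ ℓ = 1 := by rw [← Units.val_pow_eq_pow_val, h, Units.val_one]
  have h2 : ((c : F) - 1) ^ ℓ = 0 := by rw [sub_pow_char, h1, one_pow, sub_self]
  have h3 := pow_eq_zero_iff (hF.prime.ne_zero) |>.1 h2
  exact Units.ext (sub_eq_zero.1 h3)

/-- `O_ℓ = 1` from the quotient by the centre -/
theorem opCore_bot {ℓ : ℕ} [Fact ℓ.Prime] {E S : Type} [Group E] [Finite E] [Group S] [Finite S]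
    (hS : NonabSimple S) (T : Subgroup (E ⧸ Subgroup.center E)) (hT : IsSocle T S)
    (hZ : ¬ ℓ ∣ Nat.card (Subgroup.center E)) : opCore ℓ E = ⊥ := by
  obtain ⟨o1, o2, -⟩ := opCore_spec ℓ E
  have h1 : opCore ℓ E ≤ Subgroup.center E := by
    by_contra hne
    have hK : ((opCore ℓ E).map (QuotientGroup.mk' (Subgroup.center E))).Normal :=
      o1.map _ (QuotientGroup.mk'_surjective _)
    have hKne : (opCore ℓ E).map (QuotientGroup.mk' (Subgroup.center E)) ≠ ⊥ := by
      intro hb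
      apply hne
      rw [Subgroup.map_eq_bot_iff, QuotientGroup.ker_mk'] at hb
      exact hb
    have hle := hT.le hK hKne
    have hp : IsPGroup ℓ T := (o2.map _).to_le hle
    obtain ⟨e⟩ := hT.iso
    have hpS : IsPGroup ℓ S := hp.of_equiv e
    obtain ⟨hsimp, a, b, hab⟩ := hS
    have hnt : Nontrivial S := hsimp.toNontrivial
    have hc := hpS.center_nontrivial
    rcases hsimp.eq_bot_or_eq_top_of_normal (Subgroup.center S) inferInstance with h2 | h2
    · rw [h2] at hc
      exact absurd hc (by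
        rw [Subgroup.nontrivial_iff_ne_bot]
        exact fun h => h rfl)
    · apply hab
      have h3 : b ∈ Subgroup.center S := by rw [h2]; exact Subgroup.mem_top b
      exact Subgroup.mem_center_iff.1 h3 a
  rw [eq_bot_iff]
  intro x hx
  obtain ⟨k, hk⟩ := o2 ⟨x, hx⟩
  have hk' : x ^ ℓ ^ k = 1 := congrArg Subtype.val hk
  have h2 : orderOf x ∣ ℓ ^ k := orderOf_dvd_of_pow_eq_one hk'
  have h3 : orderOf x ∣ Nat.card (Subgroup.center E) := by
    have := orderOf_dvd_natCard (⟨x, h1 hx⟩ : Subgroup.center E)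
    rwa [Subgroup.orderOf_mk] at this
  have h4 : Nat.Coprime (ℓ ^ k) (Nat.card (Subgroup.center E)) :=
    Nat.Coprime.pow_left k (((Fact.out : ℓ.Prime).coprime_iff_not_dvd).2 hZ)
  have h5 := Nat.eq_one_of_dvd_coprimes h4 h2 h3
  rw [Subgroup.mem_bot]
  exact orderOf_eq_one_iff.1 h5

section stem

variable {F : Type} [Field F] {D : Type} [Group D] {ζ : Subgroup.center D →* Fˣ} {lam : D →* Fˣ}
  {n₀ : ℕ}

/-- the isomorphism of the quotients by the centres -/
theorem quot_equiv [IsAlgClosed F] (h : ∀ z, ζ z ^ n₀ = lam z) (hn : 0 < n₀)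
    (hinj : Function.Injective ζ) [(zh h).range.Normal] :
    (∀ x : hat lam n₀, QuotientGroup.mk' (zh h).range x ∈
        Subgroup.center (hat lam n₀ ⧸ (zh h).range) ↔ p1 lam n₀ x ∈ Subgroup.center D) ∧
    Nonempty ((D ⧸ Subgroup.center D) ≃* ((hat lam n₀ ⧸ (zh h).range) ⧸
      Subgroup.center (hat lam n₀ ⧸ (zh h).range))) := by
  have hs := p1_surj lam hn
  have key : ∀ x : hat lam n₀, QuotientGroup.mk' (zh h).range x ∈
      Subgroup.center (hat lam n₀ ⧸ (zh h).range) ↔ p1 lam n₀ x ∈ Subgroup.center D := by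
    intro x
    constructor
    · intro hx
      apply central_mod h hinj _ hs
      intro y
      have h1 := Subgroup.mem_center_iff.1 hx (QuotientGroup.mk' (zh h).range y)
      rw [← QuotientGroup.ker_mk' (zh h).range, MonoidHom.mem_ker, map_mul, map_mul, map_mul,
        map_inv, map_inv, ← h1, mul_inv_cancel_right, mul_inv_cancel]
    · intro hx
      have h1 := central_of hx
      rw [Subgroup.mem_center_iff]
      intro y
      obtain ⟨y, rfl⟩ := QuotientGroup.mk'_surjective (zh h).range y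
      rw [← map_mul, ← map_mul, Subgroup.mem_center_iff.1 h1 y]
  refine ⟨key, H63.equiv_of_ker ((QuotientGroup.mk' (Subgroup.center D)).comp (p1 lam n₀))
    ((QuotientGroup.mk' (Subgroup.center (hat lam n₀ ⧸ (zh h).range))).comp
      (QuotientGroup.mk' (zh h).range))
    ((QuotientGroup.mk'_surjective _).comp hs)
    ((QuotientGroup.mk'_surjective _).comp (QuotientGroup.mk'_surjective _)) ?_⟩
  ext x
  rw [MonoidHom.mem_ker, MonoidHom.mem_ker, MonoidHom.comp_apply, MonoidHom.comp_apply,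
    ← MonoidHom.mem_ker, ← MonoidHom.mem_ker, QuotientGroup.ker_mk', QuotientGroup.ker_mk']
  exact (key x).symm

/-- modulo `Ẑ` the elements over the centre are the elements `(1, c)` -/
theorem exists_one (h : ∀ z, ζ z ^ n₀ = lam z) [(zh h).range.Normal] {x : hat lam n₀}
    (hx : p1 lam n₀ x ∈ Subgroup.center D) : ∃ y : hat lam n₀, p1 lam n₀ y = 1 ∧
      QuotientGroup.mk' (zh h).range x = QuotientGroup.mk' (zh h).range y := by
  refine ⟨x * (zh h ⟨_, hx⟩)⁻¹, ?_, ?_⟩
  · rw [map_mul, map_inv, p1_zh, mul_inv_cancel]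
  · have h1 : QuotientGroup.mk' (zh h).range (zh h ⟨_, hx⟩) = 1 := by
      rw [← MonoidHom.mem_ker, QuotientGroup.ker_mk']
      exact ⟨_, rfl⟩
    rw [map_mul, map_inv, h1, inv_one, mul_one]

/-- two elements over `1` which agree modulo `Ẑ` are equal -/
theorem one_inj (h : ∀ z, ζ z ^ n₀ = lam z) {x : hat lam n₀} (hx : p1 lam n₀ x = 1)
    (hx1 : x ∈ (zh h).range) : x = 1 := by
  obtain ⟨hz, h1⟩ := (mem_zh h).1 hx1
  apply hat_ext
  · rw [hx, map_one]
  · rw [← h1, map_one, ← map_one ζ]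
    congr 1
    exact Subtype.ext hx

end stem

/-- STM -/
theorem stm : StmStmt := by
  intro ℓ hℓ F _ hF H _ _ N _ hQ S _ _ hS hdvd hI D _ _ hO hns hinv e he hcl hpos
  by_cases he0 : e = 0
  · rw [he0]
    exact H67.YY_zero hF ⊤
  have := hF.closed
  have := hF.char
  obtain ⟨a0, ha0⟩ : ∃ a, e a ≠ 0 := Function.ne_iff.1 he0
  -- the character `ζ`
  have hex : ∀ z : Subgroup.center D, ∃ c : F, ∀ x, e (z * x) = c * e x := by
    intro z
    by_cases hz : (z : D) = 1
    · exact ⟨1, fun x => by rw [hz, one_mul, one_mul]⟩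
    · obtain ⟨c, -, hc⟩ := hcl z z.2 hz
      exact ⟨c, hc⟩
  choose c hc using hex
  have huniq : ∀ (z : Subgroup.center D) (w : F), (∀ x, e (z * x) = w * e x) → w = c z := by
    intro z w hw
    exact mul_right_cancel₀ ha0 ((hw a0).symm.trans (hc z a0))
  have hc1 : c 1 = 1 := (huniq 1 1 (fun x => by rw [Subgroup.coe_one, one_mul, one_mul])).symm
  have hcm : ∀ z w, c (z * w) = c z * c w := fun z w =>
    (huniq (z * w) _ (fun x => by rw [Subgroup.coe_mul, mul_assoc, hc z, hc w, mul_assoc])).symm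
  have hcu : ∀ z, c z ≠ 0 := by
    intro z hz
    have h1 := hcm z z⁻¹
    rw [mul_inv_cancel, hc1, hz, zero_mul] at h1
    exact one_ne_zero h1
  obtain ⟨ζ, hζ⟩ : ∃ ζ : Subgroup.center D →* Fˣ, ∀ (z : Subgroup.center D) (x : D),
      e (z * x) = (ζ z : F) * e x :=
    ⟨{ toFun := fun z => Units.mk0 (c z) (hcu z)
       map_one' := Units.ext hc1
       map_mul' := fun z w => Units.ext (hcm z w) }, fun z x => hc z x⟩
  have hinj : Function.Injective ζ := by
    rw [injective_iff_map_eq_one]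
    intro z hz
    by_contra hne
    obtain ⟨w, hw1, hw⟩ := hcl z z.2 (fun h => hne (Subtype.ext h))
    have h1 := huniq z w hw
    have h2 := huniq z (ζ z : F) (hζ z)
    rw [hz, Units.val_one] at h2
    exact hw1 (h1.trans h2.symm)
  -- the extension of `ζ ^ n₀`
  obtain ⟨n₀, hn₀⟩ : ∃ n, n = Nat.card (Subgroup.center D ⊓ commutator D : Subgroup D) := ⟨_, rfl⟩
  have hn0 : 0 < n₀ := hn₀ ▸ Nat.card_pos
  have hpow : ∀ z : Subgroup.center D, (z : D) ∈ commutator D → ζ z ^ n₀ = 1 := by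
    intro z hz
    have h1 : (⟨z, z.2, hz⟩ : (Subgroup.center D ⊓ commutator D : Subgroup D)) ^ n₀ = 1 := by
      rw [hn₀]
      exact pow_card_eq_one'
    have h1' : (z : D) ^ n₀ = 1 := congrArg Subtype.val h1
    have h2 : z ^ n₀ = 1 := Subtype.ext h1'
    rw [← map_pow, h2, map_one]
  obtain ⟨lam, hlam⟩ := exists_lin (Subgroup.center D) ((powMonoidHom n₀).comp ζ) hpow
  have h : ∀ z, ζ z ^ n₀ = lam z := fun z => (hlam z).symm
  have hfin := hat_finite lam hn0
  have hZn : (zh h).range.Normal := zh_normal h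
  have hs := p1_surj lam hn0
  obtain ⟨hcen, ⟨φ⟩⟩ := quot_equiv h hn0 hinj
  obtain ⟨q, hq⟩ : ∃ q, q = QuotientGroup.mk' (zh h).range := ⟨_, rfl⟩
  have hqs : Function.Surjective q := by rw [hq]; exact QuotientGroup.mk'_surjective _
  have hqk : q.ker = (zh h).range := by rw [hq]; exact QuotientGroup.ker_mk' _
  -- the kernels have order prime to `ℓ`
  have hk1 : ¬ ℓ ∣ Nat.card (p1 lam n₀).ker := by
    apply not_dvd_of
    intro x hx hxl
    apply hat_ext
    · rw [map_one]
      exact hx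
    · rw [map_one]
      apply units_pow hF
      rw [← map_pow, hxl, map_one]
  have hk2 : ¬ ℓ ∣ Nat.card q.ker := by
    apply not_dvd_of
    intro x hx hxl
    rw [hqk] at hx
    obtain ⟨z, rfl⟩ := hx
    have h1 : ζ z = 1 := by
      apply units_pow hF
      rw [← chi_zh h z, ← map_pow, hxl, map_one]
    rw [← map_one ζ] at h1
    rw [hinj h1, map_one]
  -- the centre of `D₀`
  have hone : ∀ w : hat lam n₀ ⧸ (zh h).range, w ∈ Subgroup.center (hat lam n₀ ⧸ (zh h).range) →
      ∃ y : hat lam n₀, p1 lam n₀ y = 1 ∧ w = q y := by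
    intro w hw
    obtain ⟨x, rfl⟩ := QuotientGroup.mk'_surjective (zh h).range w
    rw [hq]
    exact exists_one h ((hcen x).1 hw)
  have hcard : ¬ ℓ ∣ Nat.card (Subgroup.center (hat lam n₀ ⧸ (zh h).range)) := by
    apply not_dvd_of
    intro w hw hwl
    obtain ⟨y, hy1, rfl⟩ := hone w hw
    have h1 : y ^ ℓ ∈ (zh h).range := by rw [← hqk, MonoidHom.mem_ker, map_pow, hwl]
    have h2 : y ^ ℓ = 1 := one_inj h (by rw [map_pow, hy1, one_pow]) h1
    have h3 : y = 1 := by
      apply hat_ext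
      · rw [hy1, map_one]
      · rw [map_one]
        apply units_pow hF
        rw [← map_pow, h2, map_one]
    rw [h3, map_one]
  have hnsF : NearlySimpleF ℓ (hat lam n₀ ⧸ (zh h).range) S := nf_equiv φ hns
  obtain ⟨T, t1, t2, t3, -⟩ := hnsF
  have hO' : opCore ℓ (hat lam n₀ ⧸ (zh h).range) = ⊥ := opCore_bot hS T ⟨hS, t1, t2, t3⟩ hcard
  -- the centre of `D₀` lies in the commutator subgroup
  have hstem : Subgroup.center (hat lam n₀ ⧸ (zh h).range) ≤
      commutator (hat lam n₀ ⧸ (zh h).range) := by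
    intro w hw
    obtain ⟨y, hy1, rfl⟩ := hone w hw
    have hyr : (chi lam n₀ y)⁻¹ ^ n₀ = 1 := by
      rw [inv_pow, hat_rel, hy1, map_one, inv_one]
    -- a preimage under `ζ`
    obtain ⟨z, hz1, hz2⟩ : ∃ z : Subgroup.center D, (z : D) ∈ commutator D ∧
        ζ z = (chi lam n₀ y)⁻¹ := by
      have : NeZero n₀ := ⟨hn0.ne'⟩
      let θ : (Subgroup.center D ⊓ commutator D : Subgroup D) → rootsOfUnity n₀ F := fun z =>
        ⟨ζ ⟨z, z.2.1⟩, by
          rw [mem_rootsOfUnity]
          exact hpow ⟨z, z.2.1⟩ z.2.2⟩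
      have hθ : Function.Injective θ := by
        intro a b hab
        have h1 := congrArg Subtype.val hab
        have h2 := hinj h1
        rw [Subtype.mk.injEq] at h2
        exact Subtype.ext h2
      have hle : Nat.card (rootsOfUnity n₀ F) ≤
          Nat.card (Subgroup.center D ⊓ commutator D : Subgroup D) := by
        rw [← hn₀]
        exact card_rootsOfUnity F n₀
      have hθb := (Function.Injective.bijective_of_nat_card_le hθ hle).2
      obtain ⟨z, hz⟩ := hθb ⟨(chi lam n₀ y)⁻¹, by rw [mem_rootsOfUnity]; exact hyr⟩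
      exact ⟨⟨z, z.2.1⟩, z.2.2, congrArg Subtype.val hz⟩
    -- `(1, c) ζ̂(z) = (z, 1)` lies in the commutator subgroup
    have hmap : (commutator (hat lam n₀)).map (p1 lam n₀) = commutator D := by
      rw [commutator_def, Subgroup.map_commutator, Subgroup.map_top_of_surjective _ hs,
        commutator_def]
    obtain ⟨v, hv, hv1⟩ : (z : D) ∈ (commutator (hat lam n₀)).map (p1 lam n₀) := by
      rw [hmap]
      exact hz1
    have hv2 : chi lam n₀ v = 1 := by
      have h1 : commutator (hat lam n₀) ≤ (chi lam n₀).ker :=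
        Abelianization.commutator_subset_ker _
      exact h1 hv
    have h1 : v = y * zh h z := by
      apply hat_ext
      · rw [hv1, map_mul, hy1, one_mul, p1_zh]
      · rw [hv2, map_mul, chi_zh, hz2, mul_inv_cancel]
    have h2 : q y = q v := by
      have h3 : q (zh h z) = 1 := by
        rw [← MonoidHom.mem_ker, hqk]
        exact ⟨_, rfl⟩
      rw [h1, map_mul, h3, mul_one]
    rw [h2]
    have h3 : (commutator (hat lam n₀)).map q = commutator (hat lam n₀ ⧸ (zh h).range) := by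
      rw [commutator_def, Subgroup.map_commutator, Subgroup.map_top_of_surjective _ hqs,
        commutator_def]
    rw [← h3]
    exact ⟨v, hv, rfl⟩
  have hinv' : Involves H ((hat lam n₀ ⧸ (zh h).range) ⧸
      Subgroup.center (hat lam n₀ ⧸ (zh h).range)) := hinv.trans_equiv φ
  -- the idempotents
  have hp1c : ∀ x, p1 lam n₀ x = 1 → x ∈ Subgroup.center (hat lam n₀) := by
    intro x hx
    apply central_of
    rw [hx]
    exact Subgroup.one_mem _
  have hqc : ∀ x, q x = 1 → x ∈ Subgroup.center (hat lam n₀) := by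
    intro x hx
    rw [← MonoidHom.mem_ker, hqk] at hx
    exact zh_central h hx
  obtain ⟨i1, -, i2⟩ := H74.cen ℓ F hF (hat lam n₀) D (p1 lam n₀) hs hp1c hk1 e he
  have hcop1 : (Nat.card (p1 lam n₀).ker).Coprime ℓ :=
    ((hF.prime.coprime_iff_not_dvd).2 hk1).symm
  have hcop2 : (Nat.card q.ker).Coprime ℓ := ((hF.prime.coprime_iff_not_dvd).2 hk2).symm
  have hne1 := H74.natCast_ne hF hcop1
  have hne2 := H74.natCast_ne hF hcop2
  obtain ⟨ê, hê⟩ : ∃ ê, ê = twl (chi lam n₀)⁻¹ (H74.infl (p1 lam n₀) e) := ⟨_, rfl⟩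
  have hêv : ∀ x, ê x = (Nat.card (p1 lam n₀).ker : F)⁻¹ * e (p1 lam n₀ x) *
      (((chi lam n₀ x)⁻¹ : Fˣ) : F) := by
    intro x
    rw [hê]
    rfl
  have hinvar : ∀ z x, ê (zh h z * x) = ê x := by
    intro z x
    rw [hêv, hêv, map_mul, map_mul, p1_zh, chi_zh, hζ, mul_inv, Units.val_mul,
      Units.val_inv_eq_inv_val, Units.val_inv_eq_inv_val]
    have h1 : (ζ z : F) ≠ 0 := (ζ z).ne_zero
    field_simp
  have hinvar' : ∀ x y, q x = q y → ê x = ê y := by
    intro x y hxy
    have h1 : x * y⁻¹ ∈ (zh h).range := by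
      rw [← hqk, MonoidHom.mem_ker, map_mul, map_inv, hxy, mul_inv_cancel]
    obtain ⟨z, hz⟩ := h1
    have h2 : x = zh h z * y := by rw [hz, inv_mul_cancel_right]
    rw [h2, hinvar]
  choose r hr using hqs
  obtain ⟨e₀, he₀⟩ : ∃ e₀ : hat lam n₀ ⧸ (zh h).range → F, e₀ = fun w =>
      (Nat.card q.ker : F) * ê (r w) := ⟨_, rfl⟩
  have he₀v : ∀ x, e₀ (q x) = (Nat.card q.ker : F) * ê x := by
    intro x
    rw [he₀]
    change (Nat.card q.ker : F) * ê (r (q x)) = _
    rw [hinvar' (r (q x)) x (hr _)]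
  have hinfl : H74.infl q e₀ = ê := by
    funext x
    unfold H74.infl
    rw [he₀v, ← mul_assoc, inv_mul_cancel₀ hne2, one_mul]
  have hêi : IsIdem ê := by
    rw [hê]
    exact twl_idem _ i1
  have hqs' : Function.Surjective q := fun w => ⟨r w, hr w⟩
  have he₀i : IsIdem e₀ := idem_of_infl hF q hqs' hcop2 (by rw [hinfl]; exact hêi)
  have hpos1 : Pos ℓ (H74.infl (p1 lam n₀) e) ⊤ := by
    have := (i2 ⊤ inferInstance).2 hpos
    rwa [Subgroup.comap_top] at this
  have hposê : Pos ℓ ê ⊤ := by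
    rw [hê]
    exact twl_Pos _ _ hpos1
  have hpos0 : Pos ℓ e₀ ⊤ := by
    apply Pos_of_infl hF q hqs' hcop2
    rw [hinfl, Subgroup.comap_top]
    exact hposê
  have hclause : ∀ w ∈ Subgroup.center (hat lam n₀ ⧸ (zh h).range), w ≠ 1 →
      ∃ c : F, c ≠ 1 ∧ ∀ x, e₀ (w * x) = c * e₀ x := by
    intro w hw hw1
    obtain ⟨y, hy1, rfl⟩ := hone w hw
    refine ⟨(((chi lam n₀ y)⁻¹ : Fˣ) : F), ?_, ?_⟩
    · intro hcon
      apply hw1
      have h1 : (chi lam n₀ y)⁻¹ = 1 := Units.ext hcon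
      have h2 : y = 1 := by
        apply hat_ext
        · rw [hy1, map_one]
        · rw [map_one]
          exact inv_eq_one.1 h1
      rw [h2, map_one]
    · intro x
      obtain ⟨x, rfl⟩ := hqs' x
      rw [← map_mul, he₀v, he₀v, hêv, hêv, map_mul, map_mul, hy1, one_mul, mul_inv,
        Units.val_mul]
      ring
  have hzero := hQ S hS hdvd hI (hat lam n₀ ⧸ (zh h).range) hO' (nf_equiv φ hns) hinv' hstem e₀
    he₀i hclause hpos0
  -- the sums
  obtain ⟨-, -, i3⟩ := H74.cen ℓ F hF (hat lam n₀) _ q hqs' hqc hk2 e₀ he₀i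
  have j1 : YY ℓ ⊤ ê = 0 := by
    have h1 := (i3 ⊤ inferInstance).1
    rw [hzero, mul_zero, Subgroup.comap_top] at h1
    rw [← hinfl]
    exact h1
  have j2 : YY ℓ ⊤ (H74.infl (p1 lam n₀) e) = 0 := by
    rw [hê, twl_YY] at j1
    exact j1
  have j3 := (i2 ⊤ inferInstance).1
  rw [Subgroup.comap_top] at j3
  have j4 : (Nat.card (p1 lam n₀).ker : ℤ) * YY ℓ ⊤ e = 0 := j3.symm.trans j2
  rcases mul_eq_zero.1 j4 with h1 | h1
  · exact absurd h1 (by exact_mod_cast (Nat.card_pos (α := (p1 lam n₀).ker)).ne')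
  · exact h1

end Pool.Agent.PP.H96
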