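import Pool.Agent.Helper46_PP.Top
import Pool.Agent.Helper46_PP.Blk
import Pool.Agent.Helper75_PP.Fr
import Pool.Agent.Helper9_PP.Add
import Pool.Agent.Helper94_PP.Nch
import Pool.Agent.Helper66_PP.Pos1
import Pool.Agent.Helper39_AWR.Pos3
import Pool.Agent.Helper39_AWR.GrpA
import Pool.Agent.Helper96_PP.Trn
import Pool.Agent.Helper96_PP.S1g
import Pool.Agent.Helper96_PP.Fnl
import Pool.Agent.Helper96_PP.Lqv
import Pool.Agent.Helper18_PP.Dzf
import Pool.Agent.Helper18_PP.Bet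
import Pool.Agent.Helper18_PP.Eps
import Pool.Agent.Helper18_PP.Brg2
import Pool.Agent.Helper18_PP.Cyv
import Pool.Agent.Helper20_PP.Blk
import Pool.Agent.Helper20_PP.MatS
import Pool.Agent.Helper20_PP.Ibr
import Pool.Agent.Helper20_PP.Nls
import Pool.Agent.Helper20_PP.Mov
import Pool.Agent.Helper20_PP.Fra
import Pool.Agent.Helper20_PP.Rst
import Pool.Agent.Helper74_PP.Cen
import Pool.Agent.Helper74_PP.Cov
import Pool.Agent.Helper74_PP.Loc
import Pool.Agent.Helper74_PP.SupJ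
import Pool.Agent.Helper74_PP.Xfs
import Pool.Agent.Helper74_PP.Brt
import Pool.Agent.Helper6_PP.Cmp
import Pool.Agent.Helper6_PP.NcoF
import Pool.Agent.Helper6_PP.Slice
import Pool.Agent.Helper6_PP.Fcu
import Pool.Agent.Helper59_PP.Dzq
import Pool.Agent.Helper58_CL.Fin
import Pool.Agent.Helper58_PP.Tfa
import Pool.Agent.Helper58_PP.Wjc
import Pool.Agent.Helper21_PP.Psf
import Pool.Agent.Helper21_PP.Tsb
import Pool.Agent.Helper21_PP.Inx
import Pool.Agent.Helper65_PP.Sup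
import Pool.Agent.Helper65_PP.Fis
import Pool.Agent.Helper65_PP.Shf
import Pool.Agent.Helper66_PP.Lct
import Pool.Agent.Helper66_PP.Dbc
import Pool.Agent.Helper62_PP.Inn
import Pool.Agent.Helper62_PP.Scu
import Pool.Agent.Helper76_PP.Lft
import Pool.Agent.Helper91_AWR.Ssp
import Pool.Agent.Helper94_PP.Sum
import Pool.Agent.Helper94_PP.Db2c
import Pool.Agent.Helper98_PP.Rr2
import Pool.Agent.Helper63_PP.Jii
import Pool.Agent.Helper63_PP.Smt
import Pool.Agent.Helper60_PP.Orv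
import Pool.Agent.Helper60_PP.Lqr
import Pool.Agent.Helper17_PP.Prv
import Pool.Agent.Helper17_PP.Lqn
import Pool.Agent.Helper43_PP.Scl
import Pool.Agent.Helper43_PP.Box
import Pool.Agent.Helper43_PP.Can
import Pool.Agent.Helper43_PP.Smo
import Pool.Agent.Helper31_PP.Ncg
import Pool.Agent.Helper33_PP.Swa
import Pool.Agent.Helper90_PP.The
import Pool.Agent.Helper47_PP.Nie
import Pool.Agent.Helper26_PP.Lz
import Pool.Agent.Helper26_PP.Cux
import Pool.Agent.Helper26_PP.Gue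
import Pool.Agent.Helper51_PP.Pip
import Pool.Agent.Helper5_PP.Pib
import Pool.Agent.Helper50_PP.Ffa
import Pool.Agent.Helper67_PP.Rkr
import Pool.Agent.Helper67_PP.S1n
import Pool.Agent.Helper6_PP.Com
import Pool.Agent.Helper9_PP.Lq
import Pool.Agent.Helper75_PP.Lqm
import Pool.Agent.Helper91_AWR.Pow
import Pool.Agent.Helper63_PP.Lqu
import Pool.Agent.Helper19_PP.Cvr
import Pool.Agent.Helper19_PP.Lma
import Pool.Agent.Helper75_PP.Fin
import Pool.Agent.Helper50_PP.Dic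
import Pool.Agent.Helper50_PP.Ldp
import Pool.Agent.Helper50_PP.Bid
import Pool.Agent.Helper47_PP.Fxu
import Pool.Agent.Helper47_PP.Osi
import Pool.Agent.Helper66_PP.Vst
import Pool.Agent.Helper96_PP.Stm2
import Pool.Agent.Helper46_PP.Db1
import Pool.Agent.Helper18_PP.Cyd
import Pool.Agent.Helper83_PP.Bxh
import Pool.Agent.Helper63_PP.Bij
import Pool.Agent.Helper75_PP.ConInv
import Pool.Agent.Helper31_PP.Shs
import Pool.Agent.Helper90_PP.Ccp
import Pool.Agent.Helper17_PP.Ops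
import Pool.Agent.Helper90_PP.Cnt
import Pool.Agent.Helper9_PP.Pbk
import Pool.Agent.Helper94_PP.Rel
import Pool.Agent.Helper94_PP.LemQ
import Pool.Agent.Helper75_PP.Fin2
import Pool.Agent.Helper31_PP.Prd

/-!
# Squad PP: the assembly of the main theorem `MainStmt`
-/

noncomputable section

namespace Pool.Agent.PP.H96

open Pool.Agent.PP

/-! ## Clifford theory of class functions (CL) -/

theorem brt_ : BrtStmt := H74.brt H20.ibf H20.ibc H20.ibj H20.ibn

theorem cl_ : ClStmt :=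
  Pool.Agent.Helper58_CL.cl H20.ibf H20.ibc H20.ibj H20.ibn H20.eig brt_

/-! ## DZ -/

theorem nco_ : NcoStmt := H6.nco_stmt (H6.cmp H20.matS H74.orb)

theorem eps_ : EpsStmt := H18.eps_stmt H20.matS H20.ibc H20.blk

theorem dz_ : DzStmt :=
  H18.dz (H74.covStmt H20.ibc) H74.cen H20.matS H94.nch (H65.sup H20.nls) nco_
    (H59.dzq cl_ (Pool.Agent.Helper58_CL.clu H20.ibc) eps_ H20.blk H20.matS nco_ H20.nls H20.brm
      H20.eig H20.ibc) H21.psf

/-! ## FR -/

theorem fr_ : FrStmt := H75.fr H94.nch H74.orb H20.nls H20.ibf H20.ibj H20.ibn H20.eig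

/-! ## J -/

theorem tfa_ : TfaStmt := H58.tfa H62.scu

theorem sum_ : SumStmt :=
  H94.sum H94.nch cl_ J74.loc J74.xfs J74.supJ H66.lct H62.inn tfa_ H66.bby

theorem dbln_ : DblnStmt :=
  H94.dbln H20.nls H20.brm H94.nch Pool.Agent.AWR.H39.ps3 H66.lct cl_ J74.loc J74.xfs H62.inn tfa_
    (H20.uni J74.loc H62.scu H66.lct) H46.db1 (H91R.ssp H62.scu) (H20.mov H62.scu H66.lct) H20.fra
    H20.rst

/-! ## LQ -/

theorem rkr_ : RkrStmt :=
  H67.rkr H63.smt H43.smo H20.brm H43.can H47F.fxu Pool.Agent.Helper26_PP.cux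
    (Pool.Agent.Helper26_PP.gue H94.nch H20.nls)

theorem lqr_ : LqrStmt := H60L.lqr H75.lqm (H65.fis H50.fld)

theorem osi_ : OsiStmt := H47O.osi H63.sma H74.rgl

theorem lqn_ : LqnStmt :=
  H17.lqn osi_ (H9.lq rkr_ lqr_ H66.ps1 H20.brm Pool.Agent.Helper26_PP.cux osi_)

/-! ## S1 -/

theorem s1n_ : S1nStmt :=
  H67.s1n H19.cvr H91R.pow_ H19.lma (H63.lqu osi_ lqn_ fnl)

theorem s1_ : S1Stmt :=
  s1g s1n_ H9.addStmt fr_ Pool.Agent.AWR.H39.ps3 sum_ dbln_

/-! ## R2 -/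

theorem the_ : TheStmt := H90.the H20.nls H74.orb

theorem tsb_ : TsbStmt := H21.tsb the_

theorem scl_ : SclStmt := H43.scl tsb_ the_

theorem swa_ : SwaStmt := H33S.swa tsb_ the_

theorem box_ : BoxStmt := H43.box H31.ncg

theorem pip_ : PipStmt := H51.pip H5.pib

theorem fbk_ : FbkStmt := H6.fbk H20.ibn H20.eig

theorem fcu_ : FcuStmt := H6.fcu H20.ibn H20.eig

theorem prv_ : PrvStmt :=
  H17.prv Pool.Agent.Helper26_PP.lz H31.prd fbk_ fcu_ scl_

theorem cyd_ : CydStmt :=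
  H18.cyd box_ bxh H63.bij H75.con H31.shs (H90.C.ccp the_ pip_) (H17.ops the_ H63.bij) H90.cnt
    H9.pbk

theorem cyv_ : CyvStmt := H18.cyv Pool.Agent.Helper26_PP.lz cyd_ fbk_ fcu_ scl_

theorem orv_ : OrvStmt :=
  H60.orv prv_ cyv_ H47.nie swa_ fbk_ Pool.Agent.Helper26_PP.iso

theorem jii_ : JiiStmt :=
  H63.jii (H18.brg H20.nls H66.lct J74.xfs) orv_ Pool.Agent.Helper26_PP.iso

theorem com_ : ComStmt := H6.com H20.ibn H20.eig H62.inn J74.xfs

theorem r2_ : R2Stmt :=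
  H98.rr2 Pool.Agent.AWR.H39.ps3 (H66.dbc dbln_) sum_ com_ jii_

/-! ## The main theorem -/

theorem main_ : MainStmt :=
  H46.topTheorem fr_ dz_ rcn (trn H20.nls) yzr H66.ps1 Pool.Agent.AWR.H39.ps3
    Pool.Agent.AWR.H39.gr1 Pool.Agent.AWR.H39.gr2 Pool.Agent.AWR.H39.mus H9.addStmt H20.brm
    s1_ r2_

theorem fin_ : FinStmt :=
  H75.fin main_ H9.addStmt H20.nls H20.brm H63.smt H94.nch
    (H50.dic H20.ibn H20.nls H20.brm) H50.bid H50.chp H50.ldp H50.fld

/-! ## The reductions (V) and (VI) -/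

theorem v_ : VStmt :=
  H66.vst main_ H9.addStmt fr_ Pool.Agent.AWR.H39.ps5 sum_ dbln_ H20.rst

/-- The main theorem with the final form of the hypothesis. -/
theorem mainQ_ :
    ∀ (ℓ : ℕ) [Fact ℓ.Prime] (F : Type) [Field F], GoodF ℓ F →
      ∀ (H : Type) [Group H] [Finite H] (N : Subgroup H), N.Normal → GoodQ ℓ F N → YH ℓ F N := by
  intro ℓ _ F _ hF H _ _ N hN hQ
  exact main_ ℓ F hF H N hN
    (v_ ℓ F hF H N hN (stm ℓ F hF H N hN hQ))

/-! ## The relative form (VII) -/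

theorem lemQ_ : LemQStmt := by
  intro M _
  let _ := Ideal.Quotient.field M
  intro G _ _ N hN e he χ hχ he1 ψ hψ hover b b' hb hb1 hb' hne
  exact H94.lemQ N hN hχ hψ hover he he1 hb hb1 hb' hne

theorem relQ_ : RelQStmt := H94.relQ main_ v_ stm

theorem fin2_ : FinStmt2 :=
  H75.fin2 relQ_ lemQ_ H9.addStmt H20.nls H20.brm H63.smt H94.nch
    (H50.dic H20.ibn H20.nls H20.brm) H50.bid H50.chp H50.ldp H50.fld

end Pool.Agent.PP.H96
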